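import Pool.Agent.Helper93.IA.StC

/-!
# Module FN1 of project IA, part C: final bookkeeping for one pair of classes
-/

set_option autoImplicit false

namespace Pool.Agent.Helper89.IAC

open Finset
open Pool.Agent.Helper93.IA

theorem hFN1 : StFN1 := by
  intro α β _ _ t s A QA LA I J3 U1 W1 U2 W2 hW1 hW2 hP hJ hS
  have hinn : ∀ e ∈ I, e.1 ∈ U1 → e.2 ∈ U2 → False := by
    intro e he h1 h2
    have h3 : e ∈ ins I U1 U2 := mem_ins.2 ⟨he, h1, h2⟩
    rw [hP.inn] at h3
    exact Finset.notMem_empty e h3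
  refine ⟨?_, ?_, ?_⟩
  · intro e he
    simp only [mem_sdiff, mem_union, not_or] at he
    obtain ⟨heA, heI, ⟨hoi, hio⟩, -⟩ := he
    have heAI : e ∈ A \ I := mem_sdiff.2 ⟨heA, heI⟩
    rw [mem_ins]
    by_cases h1 : e.1 ∈ U1
    · by_cases h2 : e.2 ∈ U2
      · exact ⟨heA, h1, h2⟩
      · exact absurd (mem_io.2 ⟨heAI, h1, h2⟩) hio
    · by_cases h2 : e.2 ∈ U2
      · exact absurd (mem_oi.2 ⟨heAI, h1, h2⟩) hoi
      · have h3 : e ∈ oo (A \ I) U1 U2 := mem_oo.2 ⟨heAI, h1, h2⟩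
        rw [hP.ooe] at h3
        exact absurd h3 (Finset.notMem_empty e)
  · rw [Finset.eq_empty_iff_forall_notMem]
    intro e he
    rw [mem_ins] at he
    obtain ⟨he, h1, h2⟩ := he
    simp only [mem_union] at he
    rcases he with he | (he | he) | he
    · exact hinn e he (hW1 h1) (hW2 h2)
    · exact (mem_oi.1 he).2.1 (hW1 h1)
    · exact (mem_io.1 he).2.2 (hW2 h2)
    · exact (mem_hb.1 (hJ he)).2.2 ⟨h1, h2⟩
  · refine Sm.mono hS ?_
    intro e he
    rw [mem_ins] at he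
    obtain ⟨he, h1, h2⟩ := he
    simp only [mem_union] at he
    rcases he with he | (he | he) | he
    · exact (hinn e he h1 h2).elim
    · exact absurd h1 (mem_oi.1 he).2.1
    · exact absurd h2 (mem_io.1 he).2.2
    · exact he

end Pool.Agent.Helper89.IAC
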